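import Pool.Agent.Helper16.AltZeros.Defs

/-!
# Zeros of the Alexander polynomial from Alexander colourings; value at one
-/

namespace Pool.Agent.Helper16.AltZeros

open Polynomial

theorem det_submatrix_eq_zero {m K : Type*} [Fintype m] [DecidableEq m] [Field K]
    (A : Matrix m m K) (P : m → Prop) [DecidablePred P] (v : m → K)
    (h0 : ∀ i, ¬P i → v i = 0) (hv : v ≠ 0) (hA : ∀ i, P i → (A.mulVec v) i = 0) :
    (A.submatrix (fun i : {i // P i} => i.1) (fun i : {i // P i} => i.1)).det = 0 := by
  classical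
  apply Matrix.exists_mulVec_eq_zero_iff.mp
  refine ⟨fun i => v i.1, ?_, ?_⟩
  · intro h
    apply hv
    funext i
    by_cases hi : P i
    · exact congrFun h ⟨i, hi⟩
    · exact h0 i hi
  · funext i
    have h1 := hA i.1 i.2
    have h2 := Fintype.sum_subtype_add_sum_subtype P (fun j => A i.1 j * v j)
    have h3 : ∑ j : {x // ¬P x}, A i.1 j.1 * v j.1 = 0 :=
      Finset.sum_eq_zero fun j _ => by rw [h0 j.1 j.2, mul_zero]
    rw [h3, add_zero] at h2
    simp only [Matrix.mulVec, dotProduct, Matrix.submatrix_apply, Pi.zero_apply] at h1 ⊢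
    rw [h2, h1]

namespace KnotDiagram

variable (D : KnotDiagram)

/-- An Alexander colouring at the real number `t`. -/
def IsColouring (t : ℝ) (x : Fin (2 * D.N) → ℝ) : Prop :=
  ∀ p, (D.isOver p = true → x (D.next p) = x p) ∧
    (D.isOver p = false → D.isPos p = true →
      x (D.next p) = t * x p + (1 - t) * x (D.partner p)) ∧
    (D.isOver p = false → D.isPos p = false →
      x p = t * x (D.next p) + (1 - t) * x (D.partner p))

theorem aeval_eq_zero {t : ℝ} {x : Fin (2 * D.N) → ℝ} (hx : D.IsColouring t x)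
    (h0 : ∀ i : Fin (2 * D.N), i.1 = 0 → x i = 0) (hne : x ≠ 0) :
    aeval t D.alexanderPoly = 0 := by
  unfold alexanderPoly
  rw [AlgHom.map_det]
  have h1 : ((aeval t : ℤ[X] →ₐ[ℤ] ℝ).mapMatrix
      (D.alexanderMatrix.submatrix (fun i : {i : Fin (2 * D.N) // i.1 ≠ 0} => i.1)
        (fun i : {i : Fin (2 * D.N) // i.1 ≠ 0} => i.1))) =
      ((D.alexanderMatrix.map (aeval t : ℤ[X] →ₐ[ℤ] ℝ)).submatrix
        (fun i : {i : Fin (2 * D.N) // i.1 ≠ 0} => i.1)
        (fun i : {i : Fin (2 * D.N) // i.1 ≠ 0} => i.1)) := rfl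
  rw [h1]
  apply det_submatrix_eq_zero (D.alexanderMatrix.map (aeval t : ℤ[X] →ₐ[ℤ] ℝ))
    (fun i : Fin (2 * D.N) => i.1 ≠ 0) x (fun i hi => h0 i (by simpa using hi)) hne
  intro p _
  obtain ⟨ha, hb, hc⟩ := hx p
  have key : (fun j => aeval t (D.alexanderMatrix p j)) =
      if D.isOver p = true then Pi.single (D.next p) 1 - Pi.single p 1
      else if D.isPos p = true then
        Pi.single (D.next p) 1 - Pi.single p t - Pi.single (D.partner p) (1 - t)
      else Pi.single (D.next p) t - Pi.single p 1 + Pi.single (D.partner p) (1 - t) := by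
    funext j
    unfold alexanderMatrix
    split_ifs <;> simp [Pi.single_apply, apply_ite (aeval t : ℤ[X] →ₐ[ℤ] ℝ)]
  show dotProduct (fun j => aeval t (D.alexanderMatrix p j)) x = 0
  rw [key]
  split_ifs with h2 h3
  · rw [sub_dotProduct, single_dotProduct, single_dotProduct, ha h2]; ring
  · rw [sub_dotProduct, sub_dotProduct, single_dotProduct, single_dotProduct, single_dotProduct,
      hb (by simpa using h2) h3]; ring
  · rw [add_dotProduct, sub_dotProduct, single_dotProduct, single_dotProduct, single_dotProduct]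
    linear_combination -(hc (by simpa using h2) (by simpa using h3))

theorem alexanderPoly_eval_one : D.alexanderPoly.eval 1 ≠ 0 := by
  unfold alexanderPoly
  have h0 : D.alexanderPoly.eval 1 = (evalRingHom (1 : ℤ)) D.alexanderPoly := rfl
  unfold alexanderPoly at h0
  rw [h0, RingHom.map_det]
  set B := (evalRingHom (1 : ℤ)).mapMatrix
      (D.alexanderMatrix.submatrix (fun i : {i : Fin (2 * D.N) // i.1 ≠ 0} => i.1)
        (fun i : {i : Fin (2 * D.N) // i.1 ≠ 0} => i.1)) with hB
  have hentry : ∀ i j, B i j = (Pi.single (D.next i.1) 1 - Pi.single i.1 1 : _ → ℤ) j.1 := by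
    intro i j
    have : B i j = eval 1 (D.alexanderMatrix i.1 j.1) := rfl
    rw [this]
    unfold alexanderMatrix
    split_ifs <;> simp [Pi.single_apply, apply_ite (eval (1 : ℤ))]
  have hN := D.N_pos
  have htri : B.BlockTriangular id := by
    intro i j hij
    rw [hentry]
    have hij' : j.1.1 < i.1.1 := hij
    have h1 : j.1 ≠ D.next i.1 := by
      intro h
      have h2 := congrArg Fin.val h
      simp only [next] at h2
      have hi := i.1.2
      by_cases h3 : i.1.1 + 1 < 2 * D.N
      · rw [Nat.mod_eq_of_lt h3] at h2; omega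
      · have h4 : i.1.1 + 1 = 2 * D.N := by omega
        rw [h4, Nat.mod_self] at h2
        exact j.2 h2
    have h5 : j.1 ≠ i.1 := by
      intro h; rw [h] at hij'; exact lt_irrefl _ hij'
    simp [h1, h5]
  rw [Matrix.det_of_isUpperTriangular htri]
  apply Finset.prod_ne_zero_iff.mpr
  intro i _
  rw [hentry]
  have h1 : i.1 ≠ D.next i.1 := by
    intro h
    have h2 := congrArg Fin.val h
    simp only [next] at h2
    have hi := i.1.2
    by_cases h3 : i.1.1 + 1 < 2 * D.N
    · rw [Nat.mod_eq_of_lt h3] at h2; omega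
    · have h4 : i.1.1 + 1 = 2 * D.N := by omega
      rw [h4, Nat.mod_self] at h2
      exact i.2 h2
  simp [h1]

theorem alexanderPoly_ne_zero : D.alexanderPoly ≠ 0 := by
  intro h
  exact D.alexanderPoly_eval_one (by rw [h]; simp)

end KnotDiagram

end Pool.Agent.Helper16.AltZeros
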