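import Pool.Agent.Helper16.AltZeros.Family

/-!
# The colouring of the family
-/

namespace Pool.Agent.Helper16.AltZeros

open Polynomial

/-- the labels of the edges -/
noncomputable def col (n : ℕ) (t k : ℝ) (p : ℕ) : ℝ :=
  if p < 4 * n then (if p % 4 < 2 then ((p / 4 : ℕ) : ℝ) * k else ((p / 4 : ℕ) : ℝ) * k + t * k)
  else if p < 4 * n + 2 then (n : ℝ) * k
  else if p < 8 * n + 2 then
    (if p % 4 < 2 then (((8 * n + 1 - p) / 4 : ℕ) : ℝ) * k + 1 - t * k
      else (((8 * n + 1 - p) / 4 : ℕ) : ℝ) * k + 1)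
  else if p < 8 * n + 4 then 1 - k
  else if p < 8 * n + 6 then (t - 1) * (1 - k - n * k)
  else (t - 1) * (1 - k) / t

section eval
variable {n i : ℕ} {t k : ℝ}

theorem col_U0 (h : i ≤ n) : col n t k (4 * i) = i * k := by
  unfold col
  rcases h.lt_or_eq with h | rfl
  · rw [if_pos (by omega), if_pos (by omega), show 4 * i / 4 = i by omega]
  · rw [if_neg (by omega), if_pos (by omega)]
theorem col_U1 (h : i ≤ n) : col n t k (4 * i + 1) = i * k := by
  unfold col
  rcases h.lt_or_eq with h | rfl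
  · rw [if_pos (by omega), if_pos (by omega), show (4 * i + 1) / 4 = i by omega]
  · rw [if_neg (by omega), if_pos (by omega)]
theorem col_U2 (h : i < n) : col n t k (4 * i + 2) = i * k + t * k := by
  unfold col
  rw [if_pos (by omega), if_neg (by omega), show (4 * i + 2) / 4 = i by omega]
theorem col_U3 (h : i < n) : col n t k (4 * i + 3) = i * k + t * k := by
  unfold col
  rw [if_pos (by omega), if_neg (by omega), show (4 * i + 3) / 4 = i by omega]
theorem col_D0 (h : i < n) : col n t k (8 * n - 4 * i - 2) = i * k + 1 := by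
  unfold col
  rw [if_neg (by omega), if_neg (by omega), if_pos (by omega), if_neg (by omega),
    show (8 * n + 1 - (8 * n - 4 * i - 2)) / 4 = i by omega]
theorem col_D1 (h : i < n) : col n t k (8 * n - 4 * i - 1) = i * k + 1 := by
  unfold col
  rw [if_neg (by omega), if_neg (by omega), if_pos (by omega), if_neg (by omega),
    show (8 * n + 1 - (8 * n - 4 * i - 1)) / 4 = i by omega]
theorem col_D2 (h : i < n) : col n t k (8 * n - 4 * i) = i * k + 1 - t * k := by
  unfold col
  rw [if_neg (by omega), if_neg (by omega), if_pos (by omega), if_pos (by omega),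
    show (8 * n + 1 - (8 * n - 4 * i)) / 4 = i by omega]
theorem col_D3 (h : i < n) : col n t k (8 * n - 4 * i + 1) = i * k + 1 - t * k := by
  unfold col
  rw [if_neg (by omega), if_neg (by omega), if_pos (by omega), if_pos (by omega),
    show (8 * n + 1 - (8 * n - 4 * i + 1)) / 4 = i by omega]
theorem col_D4 (h : i < n) : col n t k (8 * n - 4 * i + 2) = i * k + 1 - k := by
  rcases Nat.eq_zero_or_pos i with rfl | h0
  · unfold col
    rw [if_neg (by omega), if_neg (by omega), if_neg (by omega), if_pos (by omega)]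
    simp
  · rw [show 8 * n - 4 * i + 2 = 8 * n - 4 * (i - 1) - 2 by omega, col_D0 (by omega),
      Nat.cast_sub (by omega)]
    push_cast; ring
theorem col_c2 : col n t k (8 * n + 2) = 1 - k := by
  unfold col
  rw [if_neg (by omega), if_neg (by omega), if_neg (by omega), if_pos (by omega)]
theorem col_c3 : col n t k (8 * n + 3) = 1 - k := by
  unfold col
  rw [if_neg (by omega), if_neg (by omega), if_neg (by omega), if_pos (by omega)]
theorem col_c4 : col n t k (8 * n + 4) = (t - 1) * (1 - k - n * k) := by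
  unfold col
  rw [if_neg (by omega), if_neg (by omega), if_neg (by omega), if_neg (by omega),
    if_pos (by omega)]
theorem col_c5 : col n t k (8 * n + 5) = (t - 1) * (1 - k - n * k) := by
  unfold col
  rw [if_neg (by omega), if_neg (by omega), if_neg (by omega), if_neg (by omega),
    if_pos (by omega)]
theorem col_c6 : col n t k (8 * n + 6) = (t - 1) * (1 - k) / t := by
  unfold col
  rw [if_neg (by omega), if_neg (by omega), if_neg (by omega), if_neg (by omega),
    if_neg (by omega)]
theorem col_c7 : col n t k (8 * n + 7) = (t - 1) * (1 - k) / t := by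
  unfold col
  rw [if_neg (by omega), if_neg (by omega), if_neg (by omega), if_neg (by omega),
    if_neg (by omega)]

end eval

/-- the polynomial with the large root -/
def P (n t : ℝ) : ℝ := t ^ 4 - (n + 6) * t ^ 3 + (2 * n + 11) * t ^ 2 - (n + 6) * t + 1

theorem exists_root (n : ℕ) (hn : 1 ≤ n) : ∃ t : ℝ, (n : ℝ) + 2 < t ∧ P n t = 0 := by
  have hn' : (1 : ℝ) ≤ n := by exact_mod_cast hn
  have hc : ContinuousOn (P n) (Set.Icc ((n : ℝ) + 2) (n + 6)) := by
    unfold P; fun_prop
  have h1 : P n ((n : ℝ) + 2) < 0 := by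
    unfold P; nlinarith [mul_nonneg (sub_nonneg.2 hn') (sub_nonneg.2 hn'),
      mul_nonneg (mul_nonneg (sub_nonneg.2 hn') (sub_nonneg.2 hn')) (sub_nonneg.2 hn')]
  have h2 : 0 < P n ((n : ℝ) + 6) := by
    unfold P; nlinarith [mul_nonneg (sub_nonneg.2 hn') (sub_nonneg.2 hn'),
      mul_nonneg (mul_nonneg (sub_nonneg.2 hn') (sub_nonneg.2 hn')) (sub_nonneg.2 hn')]
  obtain ⟨t, ht, h3⟩ := intermediate_value_Icc (by linarith : (n : ℝ) + 2 ≤ n + 6) hc
    ⟨h1.le, h2.le⟩
  refine ⟨t, lt_of_le_of_ne ht.1 ?_, h3⟩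
  rintro rfl
  rw [h3] at h1; exact lt_irrefl _ h1

theorem fam_next (n : ℕ) (p : Fin (2 * (fam n).N)) :
    (p.1 + 1 < 8 * n + 8 ∧ ((fam n).next p).1 = p.1 + 1) ∨
      (p.1 = 8 * n + 7 ∧ ((fam n).next p).1 = 0) := by
  have hp : p.1 < 2 * (4 * n + 4) := p.2
  have h1 : ((fam n).next p).1 = (p.1 + 1) % (2 * (4 * n + 4)) := rfl
  by_cases h : p.1 + 1 < 8 * n + 8
  · left; rw [h1, Nat.mod_eq_of_lt (by omega)]; exact ⟨h, rfl⟩
  · right
    have h2 : p.1 = 8 * n + 7 := by omega
    refine ⟨h2, ?_⟩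
    rw [h1, h2, show 8 * n + 7 + 1 = 2 * (4 * n + 4) by ring, Nat.mod_self]

theorem fam_colouring (n : ℕ) (hn : 1 ≤ n) (t : ℝ) (ht : 2 < t) (hP : P n t = 0) :
    (fam n).IsColouring t (fun p => col n t ((1 - t) / (t * (2 - t))) p.1) := by
  set k := (1 - t) / (t * (2 - t)) with hk
  have ht0 : t ≠ 0 := by linarith
  have ht2 : t * (2 - t) ≠ 0 := mul_ne_zero ht0 (by linarith)
  have hk' : k * (t * (2 - t)) = 1 - t := by rw [hk, div_mul_cancel₀ _ ht2]
  have hE : t * (t - 1) * (1 - (n + 1) * k) - (2 * t - 1) * (1 - k) = 0 := by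
    apply mul_left_cancel₀ ht2
    unfold P at hP
    linear_combination (-1) * hP + (-(t * (t - 1) * (n + 1)) + (2 * t - 1)) * hk'
  have hF : n * k - t * ((n - 1) * k + 1) + (t - 1) ^ 2 * (1 - (n + 1) * k) = 0 := by
    apply mul_left_cancel₀ ht2
    unfold P at hP
    linear_combination (-1) * hP + (n - t * (n - 1) - (t - 1) ^ 2 * (n + 1)) * hk'
  intro p
  have hp : p.1 < 8 * n + 8 := by have : p.1 < 2 * (4 * n + 4) := p.2; omega
  have ho : (fam n).isOver p = decide (p.1 % 2 = 0) := rfl
  have hs : (fam n).isPos p = psn n p.1 := rfl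
  have hq : ((fam n).partner p).1 = part n p.1 := rfl
  rw [ho, hs]
  simp only [hq]
  generalize hnx : ((fam n).next p).1 = q
  have hnext := fam_next n p
  rw [hnx] at hnext
  clear hnx ho hs hq
  generalize hpp : p.1 = r at *
  clear hpp p
  rcases cases_pos n r hp with ⟨i, hi, rfl | rfl | rfl | rfl⟩ | ⟨i, hi, rfl | rfl | rfl | rfl⟩ |
    rfl | rfl | rfl | rfl | rfl | rfl | rfl | rfl
  · -- U0
    obtain rfl : q = 4 * i + 1 := by omega
    refine ⟨fun _ => ?_, fun h => ?_, fun h => ?_⟩
    · rw [col_U0 hi.le, col_U1 hi.le]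
    · exfalso; simp at h; omega
    · exfalso; simp at h; omega
  · -- U1
    obtain rfl : q = 4 * i + 2 := by omega
    refine ⟨fun h => ?_, fun _ _ => ?_, fun _ h => ?_⟩
    · exfalso; simp at h; omega
    · rw [part_U1 hi, col_U1 hi.le, col_U2 hi, col_D2 hi]
      linear_combination hk'
    · rw [psn_U1 hi] at h; simp at h
  · -- U2
    obtain rfl : q = 4 * i + 3 := by omega
    refine ⟨fun _ => ?_, fun h => ?_, fun h => ?_⟩
    · rw [col_U2 hi, col_U3 hi]
    · exfalso; simp at h; omega
    · exfalso; simp at h; omega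
  · -- U3
    obtain rfl : q = 4 * (i + 1) := by omega
    refine ⟨fun h => ?_, fun _ h => ?_, fun _ _ => ?_⟩
    · exfalso; simp at h; omega
    · rw [psn_U3 hi] at h; simp at h
    · rw [part_U3 hi, col_U0 hi.le, col_U0 (i := i + 1) hi, col_U3 hi]
      push_cast; ring
  · -- D0
    obtain rfl : q = 8 * n - 4 * i - 1 := by omega
    refine ⟨fun _ => ?_, fun h => ?_, fun h => ?_⟩
    · rw [col_D0 hi, col_D1 hi]
    · exfalso; simp at h; omega
    · exfalso; simp at h; omega
  · -- D1
    obtain rfl : q = 8 * n - 4 * i := by omega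
    refine ⟨fun h => ?_, fun _ _ => ?_, fun _ h => ?_⟩
    · exfalso; simp at h; omega
    · rw [part_D1 hi, col_D1 hi, col_D2 hi, col_U2 hi]
      linear_combination (-1) * hk'
    · rw [psn_D1 hi] at h; simp at h
  · -- D2
    obtain rfl : q = 8 * n - 4 * i + 1 := by omega
    refine ⟨fun _ => ?_, fun h => ?_, fun h => ?_⟩
    · rw [col_D2 hi, col_D3 hi]
    · exfalso; simp at h; omega
    · exfalso; simp at h; omega
  · -- D3
    obtain rfl : q = 8 * n - 4 * i + 2 := by omega
    refine ⟨fun h => ?_, fun _ h => ?_, fun _ _ => ?_⟩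
    · exfalso; simp at h; omega
    · rw [psn_D3 hi] at h; simp at h
    · rw [part_D3 hi, col_D0 hi, col_D3 hi, col_D4 hi]
      ring
  · -- l0
    obtain rfl : q = 4 * n + 1 := by omega
    refine ⟨fun _ => ?_, fun h => ?_, fun h => ?_⟩
    · rw [col_U0 le_rfl, col_U1 le_rfl]
    · exfalso; simp at h; omega
    · exfalso; simp at h; omega
  · -- l1
    obtain rfl : q = 8 * n - 4 * (n - 1) - 2 := by omega
    refine ⟨fun h => ?_, fun _ h => ?_, fun _ _ => ?_⟩
    · exfalso; simp at h; omega
    · rw [psn_l1] at h; simp at h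
    · rw [part_l1, col_U1 le_rfl, col_D0 (by omega), col_c4, Nat.cast_sub hn]
      push_cast
      linear_combination hF
  · -- c2
    obtain rfl : q = 8 * n + 3 := by omega
    refine ⟨fun _ => ?_, fun h => ?_, fun h => ?_⟩
    · rw [col_c2, col_c3]
    · exfalso; simp at h; omega
    · exfalso; simp at h; omega
  · -- c3
    obtain rfl : q = 8 * n + 4 := by omega
    refine ⟨fun h => ?_, fun _ _ => ?_, fun _ h => ?_⟩
    · exfalso; simp at h; omega
    · rw [part_c3, col_c4, col_c3, col_c6]
      field_simp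
      linear_combination hE
    · rw [psn_c3] at h; simp at h
  · -- c4
    obtain rfl : q = 8 * n + 5 := by omega
    refine ⟨fun _ => ?_, fun h => ?_, fun h => ?_⟩
    · rw [col_c4, col_c5]
    · exfalso; simp at h; omega
    · exfalso; simp at h; omega
  · -- c5
    obtain rfl : q = 8 * n + 6 := by omega
    refine ⟨fun h => ?_, fun _ h => ?_, fun _ _ => ?_⟩
    · exfalso; simp at h; omega
    · rw [psn_c5] at h; simp at h
    · rw [part_c5, col_c5, col_c6, col_U0 le_rfl]
      field_simp
      ring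
  · -- c6
    obtain rfl : q = 8 * n + 7 := by omega
    refine ⟨fun _ => ?_, fun h => ?_, fun h => ?_⟩
    · rw [col_c6, col_c7]
    · exfalso; simp at h; omega
    · exfalso; simp at h; omega
  · -- c7
    obtain rfl : q = 4 * 0 := by omega
    refine ⟨fun h => ?_, fun _ _ => ?_, fun _ h => ?_⟩
    · exfalso; simp at h; omega
    · rw [part_c7, col_U0 (Nat.zero_le n), col_c7, col_c2]
      field_simp
      push_cast
      ring
    · rw [psn_c7] at h; simp at h

theorem fam_root (n : ℕ) (hn : 1 ≤ n) :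
    ∃ t : ℝ, (n : ℝ) + 2 < t ∧ aeval t (fam n).alexanderPoly = 0 := by
  obtain ⟨t, ht, hP⟩ := exists_root n hn
  have hn' : (1 : ℝ) ≤ n := by exact_mod_cast hn
  refine ⟨t, ht, ?_⟩
  apply (fam n).aeval_eq_zero (fam_colouring n hn t (by linarith) hP)
  · intro i hi
    show col n t _ i.1 = 0
    have h := col_U0 (n := n) (i := 0) (t := t) (k := (1 - t) / (t * (2 - t))) (Nat.zero_le n)
    rw [hi]
    simpa using h
  · intro h
    have h1 := congrFun h ⟨8 * n - 4 * 0 - 2, by show _ < 2 * (4 * n + 4); omega⟩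
    change col n t _ (8 * n - 4 * 0 - 2) = 0 at h1
    rw [col_D0 (by omega)] at h1
    simp at h1

end Pool.Agent.Helper16.AltZeros
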