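import Mathlib

/-!
# Knot diagrams as signed Gauss codes: regions, planarity, alternation, Alexander polynomial
-/

namespace Pool.Agent.Helper16.AltZeros

open Polynomial

/-- An oriented knot diagram with `N` crossings, recorded by its signed Gauss code.  Travelling once
around the knot one makes `2 * N` passages through crossings, numbered `0, …, 2 * N - 1` in the order
in which they are met.  (The diagram lies on some closed oriented surface; it is a diagram of a knot
in the 3-sphere exactly when it is `Planar`, see below.) -/
structure KnotDiagram where
  /-- the number of crossings -/
  N : ℕ
  /-- there is at least one crossing -/
  N_pos : 0 < N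
  /-- the other passage through the same crossing -/
  partner : Fin (2 * N) → Fin (2 * N)
  partner_partner : ∀ p, partner (partner p) = p
  /-- `true` when passing over, `false` when passing under -/
  isOver : Fin (2 * N) → Bool
  isOver_partner : ∀ p, isOver (partner p) = !isOver p
  /-- `true` if the crossing is positive, `false` if it is negative -/
  isPos : Fin (2 * N) → Bool
  isPos_partner : ∀ p, isPos (partner p) = isPos p

namespace KnotDiagram

variable (D : KnotDiagram)

/-- The passage met next when travelling along the knot (cyclically). -/
def next (p : Fin (2 * D.N)) : Fin (2 * D.N) :=
  ⟨(p.1 + 1) % (2 * D.N), Nat.mod_lt _ (by have := D.N_pos; omega)⟩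

/-- The diagram is alternating: over- and under-passages alternate along the knot. -/
def Alternating : Prop := ∀ p, D.isOver (D.next p) = !D.isOver p

/-- The sides of the edges of the diagram.  Edge `p` is the edge which leads into passage `p`, so
that edge `next p` leaves passage `p`; `(p, true)` is the left side of edge `p` and `(p, false)` its
right side. -/
abbrev Side : Type := Fin (2 * D.N) × Bool

/-- Two sides of edges meet in a corner at a crossing.  The condition `isPos p = isOver p` says that,
for a traveller making passage `p` (northwards, say), the other strand of the crossing runs from
right to left (from east to west): the crossing is positive and `p` is the over-passage, or it is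
negative and `p` is the under-passage.  Exactly one of the two passages of a crossing is of this
kind.  The four corners of the crossing are then the north-west, south-west, south-east and
north-east ones. -/
inductive Corner : D.Side → D.Side → Prop
  | northWest (p : Fin (2 * D.N)) (h : D.isPos p = D.isOver p) :
      Corner (D.next p, true) (D.next (D.partner p), false)
  | southWest (p : Fin (2 * D.N)) (h : D.isPos p = D.isOver p) :
      Corner (p, true) (D.next (D.partner p), true)
  | southEast (p : Fin (2 * D.N)) (h : D.isPos p = D.isOver p) :
      Corner (p, false) (D.partner p, true)
  | northEast (p : Fin (2 * D.N)) (h : D.isPos p = D.isOver p) :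
      Corner (D.next p, false) (D.partner p, false)

/-- The regions of the diagram: the classes of sides under the equivalence relation generated by
sharing a corner. -/
def Region : Type := Quot D.Corner

/-- The diagram lies on the sphere: `V - E + F = 2`, where there are `V = N` crossings, `E = 2 * N`
edges and `F` regions. -/
def Planar : Prop := Nat.card D.Region = D.N + 2

/-- The Alexander matrix of the Wirtinger presentation (Fox calculus), with one generator `x p` for
each edge `p` and one relation for each passage `p`: at an over-passage `x (next p) = x p`; at an
under-passage, with `y = x (partner p)` the generator of the over-strand,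
`x (next p) = t * x p + (1 - t) * y` if the crossing is positive and
`x p = t * x (next p) + (1 - t) * y` if it is negative. -/
noncomputable def alexanderMatrix : Matrix (Fin (2 * D.N)) (Fin (2 * D.N)) ℤ[X] := fun p =>
  if D.isOver p = true then Pi.single (D.next p) 1 - Pi.single p 1
  else if D.isPos p = true then
    Pi.single (D.next p) 1 - Pi.single p X - Pi.single (D.partner p) (1 - X)
  else Pi.single (D.next p) X - Pi.single p 1 + Pi.single (D.partner p) (1 - X)

/-- The Alexander polynomial of the diagram (a representative of the Alexander polynomial of the
knot, which is defined up to a unit `± t ^ k`): the determinant of the Alexander matrix with the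
row and the column numbered `0` deleted. -/
noncomputable def alexanderPoly : ℤ[X] :=
  (D.alexanderMatrix.submatrix (fun i : {i : Fin (2 * D.N) // i.1 ≠ 0} => i.1)
    (fun i : {i : Fin (2 * D.N) // i.1 ≠ 0} => i.1)).det

end KnotDiagram

end Pool.Agent.Helper16.AltZeros
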