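import Pool.Agent.Helper16.AltZeros.Alex

/-!
# A family of alternating knot diagrams
-/

namespace Pool.Agent.Helper16.AltZeros

/-- the other passage, on natural numbers -/
def part (n p : ℕ) : ℕ :=
  if p < 4 * n then (if p % 4 = 0 then p + 3 else if p % 4 = 3 then p - 3 else 8 * n + 1 - p)
  else if p = 4 * n then 8 * n + 5
  else if p = 4 * n + 1 then 8 * n + 4
  else if p < 8 * n + 2 then
    (if p % 4 = 2 then p + 3 else if p % 4 = 1 then p - 3 else 8 * n + 1 - p)
  else if p = 8 * n + 2 then 8 * n + 7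
  else if p = 8 * n + 3 then 8 * n + 6
  else if p = 8 * n + 4 then 4 * n + 1
  else if p = 8 * n + 5 then 4 * n
  else if p = 8 * n + 6 then 8 * n + 3
  else 8 * n + 2

/-- the sign of the crossing, on natural numbers -/
def psn (n p : ℕ) : Bool :=
  if p < 4 * n then decide (p % 4 = 1 ∨ p % 4 = 2)
  else if p < 4 * n + 2 then false
  else if p < 8 * n + 2 then decide (p % 4 = 3 ∨ p % 4 = 0)
  else decide (p ≠ 8 * n + 4 ∧ p ≠ 8 * n + 5)

/-- the position lemma -/
theorem cases_pos (n p : ℕ) (hp : p < 8 * n + 8) :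
    (∃ i, i < n ∧ (p = 4 * i ∨ p = 4 * i + 1 ∨ p = 4 * i + 2 ∨ p = 4 * i + 3)) ∨
    (∃ i, i < n ∧ (p = 8 * n - 4 * i - 2 ∨ p = 8 * n - 4 * i - 1 ∨ p = 8 * n - 4 * i ∨
      p = 8 * n - 4 * i + 1)) ∨
    p = 4 * n ∨ p = 4 * n + 1 ∨ p = 8 * n + 2 ∨ p = 8 * n + 3 ∨ p = 8 * n + 4 ∨ p = 8 * n + 5 ∨
    p = 8 * n + 6 ∨ p = 8 * n + 7 := by
  by_cases h1 : p < 4 * n
  · left; exact ⟨p / 4, by omega, by omega⟩
  · by_cases h2 : 4 * n + 2 ≤ p ∧ p < 8 * n + 2
    · right; left
      exact ⟨(8 * n + 1 - p) / 4, by omega, by omega⟩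
    · right; right; omega

section eval
variable {n i : ℕ}

theorem part_U0 (h : i < n) : part n (4 * i) = 4 * i + 3 := by unfold part; split_ifs <;> omega
theorem part_U1 (h : i < n) : part n (4 * i + 1) = 8 * n - 4 * i := by
  unfold part; split_ifs <;> omega
theorem part_U2 (h : i < n) : part n (4 * i + 2) = 8 * n - 4 * i - 1 := by
  unfold part; split_ifs <;> omega
theorem part_U3 (h : i < n) : part n (4 * i + 3) = 4 * i := by unfold part; split_ifs <;> omega
theorem part_D0 (h : i < n) : part n (8 * n - 4 * i - 2) = 8 * n - 4 * i + 1 := by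
  unfold part; split_ifs <;> omega
theorem part_D1 (h : i < n) : part n (8 * n - 4 * i - 1) = 4 * i + 2 := by
  unfold part; split_ifs <;> omega
theorem part_D2 (h : i < n) : part n (8 * n - 4 * i) = 4 * i + 1 := by
  unfold part; split_ifs <;> omega
theorem part_D3 (h : i < n) : part n (8 * n - 4 * i + 1) = 8 * n - 4 * i - 2 := by
  unfold part; split_ifs <;> omega
theorem part_l0 : part n (4 * n) = 8 * n + 5 := by unfold part; split_ifs <;> omega
theorem part_l1 : part n (4 * n + 1) = 8 * n + 4 := by unfold part; split_ifs <;> omega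
theorem part_c2 : part n (8 * n + 2) = 8 * n + 7 := by unfold part; split_ifs <;> omega
theorem part_c3 : part n (8 * n + 3) = 8 * n + 6 := by unfold part; split_ifs <;> omega
theorem part_c4 : part n (8 * n + 4) = 4 * n + 1 := by unfold part; split_ifs <;> omega
theorem part_c5 : part n (8 * n + 5) = 4 * n := by unfold part; split_ifs <;> omega
theorem part_c6 : part n (8 * n + 6) = 8 * n + 3 := by unfold part; split_ifs <;> omega
theorem part_c7 : part n (8 * n + 7) = 8 * n + 2 := by unfold part; split_ifs <;> omega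

theorem psn_U0 (h : i < n) : psn n (4 * i) = false := by
  unfold psn; split_ifs <;> first | omega | (simp; done) | (simp; omega)
theorem psn_U1 (h : i < n) : psn n (4 * i + 1) = true := by
  unfold psn; split_ifs <;> first | omega | (simp; done) | (simp; omega)
theorem psn_U2 (h : i < n) : psn n (4 * i + 2) = true := by
  unfold psn; split_ifs <;> first | omega | (simp; done) | (simp; omega)
theorem psn_U3 (h : i < n) : psn n (4 * i + 3) = false := by
  unfold psn; split_ifs <;> first | omega | (simp; done) | (simp; omega)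
theorem psn_D0 (h : i < n) : psn n (8 * n - 4 * i - 2) = false := by
  unfold psn; split_ifs <;> first | omega | (simp; done) | (simp; omega)
theorem psn_D1 (h : i < n) : psn n (8 * n - 4 * i - 1) = true := by
  unfold psn; split_ifs <;> first | omega | (simp; done) | (simp; omega)
theorem psn_D2 (h : i < n) : psn n (8 * n - 4 * i) = true := by
  unfold psn; split_ifs <;> first | omega | (simp; done) | (simp; omega)
theorem psn_D3 (h : i < n) : psn n (8 * n - 4 * i + 1) = false := by
  unfold psn; split_ifs <;> first | omega | (simp; done) | (simp; omega)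
theorem psn_l0 : psn n (4 * n) = false := by
  unfold psn; split_ifs <;> first | omega | (simp; done) | (simp; omega)
theorem psn_l1 : psn n (4 * n + 1) = false := by
  unfold psn; split_ifs <;> first | omega | (simp; done) | (simp; omega)
theorem psn_c2 : psn n (8 * n + 2) = true := by
  unfold psn; split_ifs <;> first | omega | (simp; done) | (simp; omega)
theorem psn_c3 : psn n (8 * n + 3) = true := by
  unfold psn; split_ifs <;> first | omega | (simp; done) | (simp; omega)
theorem psn_c4 : psn n (8 * n + 4) = false := by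
  unfold psn; split_ifs <;> first | omega | (simp; done) | (simp; omega)
theorem psn_c5 : psn n (8 * n + 5) = false := by
  unfold psn; split_ifs <;> first | omega | (simp; done) | (simp; omega)
theorem psn_c6 : psn n (8 * n + 6) = true := by
  unfold psn; split_ifs <;> first | omega | (simp; done) | (simp; omega)
theorem psn_c7 : psn n (8 * n + 7) = true := by
  unfold psn; split_ifs <;> first | omega | (simp; done) | (simp; omega)

end eval

theorem part_lt (n p : ℕ) (hp : p < 8 * n + 8) : part n p < 8 * n + 8 := by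
  unfold part; split_ifs <;> omega

theorem part_part (n p : ℕ) (hp : p < 8 * n + 8) : part n (part n p) = p := by
  rcases cases_pos n p hp with ⟨i, hi, rfl | rfl | rfl | rfl⟩ | ⟨i, hi, rfl | rfl | rfl | rfl⟩ |
    rfl | rfl | rfl | rfl | rfl | rfl | rfl | rfl
  · rw [part_U0 hi, part_U3 hi]
  · rw [part_U1 hi, part_D2 hi]
  · rw [part_U2 hi, part_D1 hi]
  · rw [part_U3 hi, part_U0 hi]
  · rw [part_D0 hi, part_D3 hi]
  · rw [part_D1 hi, part_U2 hi]
  · rw [part_D2 hi, part_U1 hi]
  · rw [part_D3 hi, part_D0 hi]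
  · rw [part_l0, part_c5]
  · rw [part_l1, part_c4]
  · rw [part_c2, part_c7]
  · rw [part_c3, part_c6]
  · rw [part_c4, part_l1]
  · rw [part_c5, part_l0]
  · rw [part_c6, part_c3]
  · rw [part_c7, part_c2]

theorem part_parity (n p : ℕ) (hp : p < 8 * n + 8) : (part n p) % 2 = 1 - p % 2 := by
  unfold part; split_ifs <;> omega

theorem psn_part (n p : ℕ) (hp : p < 8 * n + 8) : psn n (part n p) = psn n p := by
  rcases cases_pos n p hp with ⟨i, hi, rfl | rfl | rfl | rfl⟩ | ⟨i, hi, rfl | rfl | rfl | rfl⟩ |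
    rfl | rfl | rfl | rfl | rfl | rfl | rfl | rfl
  · rw [part_U0 hi, psn_U3 hi, psn_U0 hi]
  · rw [part_U1 hi, psn_D2 hi, psn_U1 hi]
  · rw [part_U2 hi, psn_D1 hi, psn_U2 hi]
  · rw [part_U3 hi, psn_U0 hi, psn_U3 hi]
  · rw [part_D0 hi, psn_D3 hi, psn_D0 hi]
  · rw [part_D1 hi, psn_U2 hi, psn_D1 hi]
  · rw [part_D2 hi, psn_U1 hi, psn_D2 hi]
  · rw [part_D3 hi, psn_D0 hi, psn_D3 hi]
  · rw [part_l0, psn_c5, psn_l0]
  · rw [part_l1, psn_c4, psn_l1]
  · rw [part_c2, psn_c7, psn_c2]
  · rw [part_c3, psn_c6, psn_c3]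
  · rw [part_c4, psn_l1, psn_c4]
  · rw [part_c5, psn_l0, psn_c5]
  · rw [part_c6, psn_c3, psn_c6]
  · rw [part_c7, psn_c2, psn_c7]

/-- The diagram with `4 * n + 4` crossings. -/
def fam (n : ℕ) : KnotDiagram where
  N := 4 * n + 4
  N_pos := by omega
  partner p := ⟨part n p.1, by have := part_lt n p.1 (by have := p.2; omega); omega⟩
  partner_partner p := Fin.ext (part_part n p.1 (by have := p.2; omega))
  isOver p := decide (p.1 % 2 = 0)
  isOver_partner p := by
    have h := part_parity n p.1 (by have := p.2; omega)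
    rcases Nat.mod_two_eq_zero_or_one p.1 with h0 | h0 <;> simp [h, h0]
  isPos p := psn n p.1
  isPos_partner p := psn_part n p.1 (by have := p.2; omega)

theorem fam_alternating (n : ℕ) : (fam n).Alternating := by
  intro p
  have hp : p.1 < 2 * (4 * n + 4) := p.2
  have h1 : ((fam n).next p).1 = (p.1 + 1) % (2 * (4 * n + 4)) := rfl
  have h2 : ((fam n).next p).1 % 2 = 1 - p.1 % 2 := by
    rw [h1, Nat.mod_mul_right_mod]; omega
  show decide (((fam n).next p).1 % 2 = 0) = !decide (p.1 % 2 = 0)
  rcases Nat.mod_two_eq_zero_or_one p.1 with h0 | h0 <;> simp [h2, h0]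

end Pool.Agent.Helper16.AltZeros
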