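import Pool.Agent.Helper16.AltZeros.Family

/-!
# The family is planar
-/

namespace Pool.Agent.Helper16.AltZeros

/-- the region on the left of an edge -/
def labL (n p : ℕ) : ℕ :=
  if p < 4 * n then (if p % 4 = 0 then p else if p % 4 = 1 then p else if p % 4 = 2 then p + 1
    else p - 2)
  else if p = 4 * n then 4 * n
  else if p = 4 * n + 1 then 4 * n + 1
  else if p < 8 * n + 2 then (if p % 4 = 2 then 8 * n + 2 - p else if p % 4 = 3 then 8 * n + 1 - p
    else if p % 4 = 0 then 8 * n + 3 - p else 8 * n + 3 - p)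
  else if p = 8 * n + 2 then 0
  else if p = 8 * n + 3 then 4 * n + 2
  else if p = 8 * n + 4 then 4 * n + 4
  else if p = 8 * n + 5 then 4 * n + 1
  else if p = 8 * n + 6 then 4 * n + 4
  else 4 * n + 3

/-- the region on the right of an edge -/
def labR (n p : ℕ) : ℕ :=
  if p < 4 * n then (if p % 4 = 0 then 4 * n + 2 else if p % 4 = 1 then p + 3
    else if p % 4 = 2 then p else p - 3)
  else if p = 4 * n then 4 * n + 2
  else if p = 4 * n + 1 then 4 * n + 4
  else if p < 8 * n + 2 then (if p % 4 = 2 then 4 * n + 3 else if p % 4 = 3 then 8 * n - 1 - p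
    else if p % 4 = 0 then 8 * n + 1 - p else 8 * n + 5 - p)
  else if p = 8 * n + 2 then 4 * n + 3
  else if p = 8 * n + 3 then 4 * n + 5
  else if p = 8 * n + 4 then 4 * n + 3
  else if p = 8 * n + 5 then 4 * n
  else if p = 8 * n + 6 then 4 * n + 2
  else 4 * n + 5

section eval
variable {n i : ℕ}

theorem labL_U0 (h : i < n) : labL n (4 * i) = 4 * i := by
  unfold labL; split_ifs <;> omega
theorem labR_U0 (h : i < n) : labR n (4 * i) = 4 * n + 2 := by
  unfold labR; split_ifs <;> omega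
theorem labL_U1 (h : i < n) : labL n (4 * i + 1) = 4 * i + 1 := by
  unfold labL; split_ifs <;> omega
theorem labR_U1 (h : i < n) : labR n (4 * i + 1) = 4 * i + 4 := by
  unfold labR; split_ifs <;> omega
theorem labL_U2 (h : i < n) : labL n (4 * i + 2) = 4 * i + 3 := by
  unfold labL; split_ifs <;> omega
theorem labR_U2 (h : i < n) : labR n (4 * i + 2) = 4 * i + 2 := by
  unfold labR; split_ifs <;> omega
theorem labL_U3 (h : i < n) : labL n (4 * i + 3) = 4 * i + 1 := by
  unfold labL; split_ifs <;> omega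
theorem labR_U3 (h : i < n) : labR n (4 * i + 3) = 4 * i := by
  unfold labR; split_ifs <;> omega
theorem labL_D0 (h : i < n) : labL n (8 * n - 4 * i - 2) = 4 * i + 4 := by
  unfold labL; split_ifs <;> omega
theorem labR_D0 (h : i < n) : labR n (8 * n - 4 * i - 2) = 4 * n + 3 := by
  unfold labR; split_ifs <;> omega
theorem labL_D1 (h : i < n) : labL n (8 * n - 4 * i - 1) = 4 * i + 2 := by
  unfold labL; split_ifs <;> omega
theorem labR_D1 (h : i < n) : labR n (8 * n - 4 * i - 1) = 4 * i := by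
  unfold labR; split_ifs <;> omega
theorem labL_D2 (h : i < n) : labL n (8 * n - 4 * i) = 4 * i + 3 := by
  unfold labL; split_ifs <;> omega
theorem labR_D2 (h : i < n) : labR n (8 * n - 4 * i) = 4 * i + 1 := by
  unfold labR; split_ifs <;> omega
theorem labL_D3 (h : i < n) : labL n (8 * n - 4 * i + 1) = 4 * i + 2 := by
  unfold labL; split_ifs <;> omega
theorem labR_D3 (h : i < n) : labR n (8 * n - 4 * i + 1) = 4 * i + 4 := by
  unfold labR; split_ifs <;> omega
theorem labL_l0 : labL n (4 * n) = 4 * n := by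
  unfold labL; split_ifs <;> omega
theorem labR_l0 : labR n (4 * n) = 4 * n + 2 := by
  unfold labR; split_ifs <;> omega
theorem labL_l1 : labL n (4 * n + 1) = 4 * n + 1 := by
  unfold labL; split_ifs <;> omega
theorem labR_l1 : labR n (4 * n + 1) = 4 * n + 4 := by
  unfold labR; split_ifs <;> omega
theorem labL_c2 : labL n (8 * n + 2) = 0 := by
  unfold labL; split_ifs <;> omega
theorem labR_c2 : labR n (8 * n + 2) = 4 * n + 3 := by
  unfold labR; split_ifs <;> omega
theorem labL_c3 : labL n (8 * n + 3) = 4 * n + 2 := by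
  unfold labL; split_ifs <;> omega
theorem labR_c3 : labR n (8 * n + 3) = 4 * n + 5 := by
  unfold labR; split_ifs <;> omega
theorem labL_c4 : labL n (8 * n + 4) = 4 * n + 4 := by
  unfold labL; split_ifs <;> omega
theorem labR_c4 : labR n (8 * n + 4) = 4 * n + 3 := by
  unfold labR; split_ifs <;> omega
theorem labL_c5 : labL n (8 * n + 5) = 4 * n + 1 := by
  unfold labL; split_ifs <;> omega
theorem labR_c5 : labR n (8 * n + 5) = 4 * n := by
  unfold labR; split_ifs <;> omega
theorem labL_c6 : labL n (8 * n + 6) = 4 * n + 4 := by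
  unfold labL; split_ifs <;> omega
theorem labR_c6 : labR n (8 * n + 6) = 4 * n + 2 := by
  unfold labR; split_ifs <;> omega
theorem labL_c7 : labL n (8 * n + 7) = 4 * n + 3 := by
  unfold labL; split_ifs <;> omega
theorem labR_c7 : labR n (8 * n + 7) = 4 * n + 5 := by
  unfold labR; split_ifs <;> omega

theorem labL_U4 (h : i < n) : labL n (4 * i + 4) = 4 * i + 4 := by
  unfold labL; split_ifs <;> omega
theorem labR_U4 (h : i < n) : labR n (4 * i + 4) = 4 * n + 2 := by
  unfold labR; split_ifs <;> omega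
theorem labL_D4 (h : i < n) : labL n (8 * n - 4 * i + 2) = 4 * i := by
  unfold labL; split_ifs <;> omega
theorem labR_D4 (h : i < n) : labR n (8 * n - 4 * i + 2) = 4 * n + 3 := by
  unfold labR; split_ifs <;> omega
theorem labL_l2 : labL n (4 * n + 2) = 4 * n := by
  unfold labL; split_ifs <;> omega
theorem labR_l2 : labR n (4 * n + 2) = 4 * n + 3 := by
  unfold labR; split_ifs <;> omega
theorem labL_z : labL n 0 = 0 := by
  unfold labL; split_ifs <;> omega
theorem labR_z : labR n 0 = 4 * n + 2 := by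
  unfold labR; split_ifs <;> omega

end eval

theorem labL_lt (n p : ℕ) : labL n p < 4 * n + 6 := by
  unfold labL; split_ifs <;> omega

theorem labR_lt (n p : ℕ) : labR n p < 4 * n + 6 := by
  unfold labR; split_ifs <;> omega

/-- successor, cyclically -/
def Nxt (n p q : ℕ) : Prop := (p + 1 < 8 * n + 8 ∧ q = p + 1) ∨ (p = 8 * n + 7 ∧ q = 0)

theorem corner_lab (n p np nq : ℕ) (hp : p < 8 * n + 8) (h : psn n p = decide (p % 2 = 0))
    (h1 : Nxt n p np) (h2 : Nxt n (part n p) nq) :
    labL n np = labR n nq ∧ labL n p = labL n nq ∧ labR n p = labL n (part n p) ∧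
      labR n np = labR n (part n p) := by
  rcases cases_pos n p hp with ⟨i, hi, rfl | rfl | rfl | rfl⟩ | ⟨i, hi, rfl | rfl | rfl | rfl⟩ |
    rfl | rfl | rfl | rfl | rfl | rfl | rfl | rfl
  · rw [psn_U0 hi] at h; exfalso; revert h; simp; try omega
  · rw [psn_U1 hi] at h; exfalso; revert h; simp; try omega
  · rw [part_U2 hi] at h2 ⊢
    unfold Nxt at h1 h2
    obtain rfl : np = 4 * i + 3 := by omega
    obtain rfl : nq = 8 * n - 4 * i := by omega
    rw [labL_U3 hi, labR_D2 hi, labL_U2 hi, labL_D2 hi, labR_U2 hi, labL_D1 hi,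
      labR_U3 hi, labR_D1 hi]
    exact ⟨rfl, rfl, rfl, rfl⟩
  · rw [part_U3 hi] at h2 ⊢
    unfold Nxt at h1 h2
    obtain rfl : np = 4 * i + 4 := by omega
    obtain rfl : nq = 4 * i + 1 := by omega
    rw [labL_U4 hi, labR_U1 hi, labL_U3 hi, labL_U1 hi, labR_U3 hi, labL_U0 hi,
      labR_U4 hi, labR_U0 hi]
    exact ⟨rfl, rfl, rfl, rfl⟩
  · rw [psn_D0 hi] at h; exfalso; revert h; simp; try omega
  · rw [psn_D1 hi] at h; exfalso; revert h; simp; try omega
  · rw [part_D2 hi] at h2 ⊢
    unfold Nxt at h1 h2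
    obtain rfl : np = 8 * n - 4 * i + 1 := by omega
    obtain rfl : nq = 4 * i + 2 := by omega
    rw [labL_D3 hi, labR_U2 hi, labL_D2 hi, labL_U2 hi, labR_D2 hi, labL_U1 hi,
      labR_D3 hi, labR_U1 hi]
    exact ⟨rfl, rfl, rfl, rfl⟩
  · rw [part_D3 hi] at h2 ⊢
    unfold Nxt at h1 h2
    obtain rfl : np = 8 * n - 4 * i + 2 := by omega
    obtain rfl : nq = 8 * n - 4 * i - 1 := by omega
    rw [labL_D4 hi, labR_D1 hi, labL_D3 hi, labL_D1 hi, labR_D3 hi, labL_D0 hi,
      labR_D4 hi, labR_D0 hi]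
    exact ⟨rfl, rfl, rfl, rfl⟩
  · rw [psn_l0] at h; exfalso; revert h; simp; try omega
  · rw [part_l1] at h2 ⊢
    unfold Nxt at h1 h2
    obtain rfl : np = 4 * n + 2 := by omega
    obtain rfl : nq = 8 * n + 5 := by omega
    rw [labL_l2, labR_c5, labL_l1, labL_c5, labR_l1, labL_c4,
      labR_l2, labR_c4]
    exact ⟨rfl, rfl, rfl, rfl⟩
  · rw [part_c2] at h2 ⊢
    unfold Nxt at h1 h2
    obtain rfl : np = 8 * n + 3 := by omega
    obtain rfl : nq = 0 := by omega
    rw [labL_c3, labR_z, labL_c2, labL_z, labR_c2, labL_c7,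
      labR_c3, labR_c7]
    exact ⟨rfl, rfl, rfl, rfl⟩
  · rw [psn_c3] at h; exfalso; revert h; simp; try omega
  · rw [psn_c4] at h; exfalso; revert h; simp; try omega
  · rw [part_c5] at h2 ⊢
    unfold Nxt at h1 h2
    obtain rfl : np = 8 * n + 6 := by omega
    obtain rfl : nq = 4 * n + 1 := by omega
    rw [labL_c6, labR_l1, labL_c5, labL_l1, labR_c5, labL_l0,
      labR_c6, labR_l0]
    exact ⟨rfl, rfl, rfl, rfl⟩
  · rw [part_c6] at h2 ⊢
    unfold Nxt at h1 h2
    obtain rfl : np = 8 * n + 7 := by omega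
    obtain rfl : nq = 8 * n + 4 := by omega
    rw [labL_c7, labR_c4, labL_c6, labL_c4, labR_c6, labL_c3,
      labR_c7, labR_c3]
    exact ⟨rfl, rfl, rfl, rfl⟩
  · rw [psn_c7] at h; exfalso; revert h; simp; try omega

end Pool.Agent.Helper16.AltZeros
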