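import Pool.Agent.Helper16.AltZeros.Planar

/-!
# The family is planar: conclusion
-/

namespace Pool.Agent.Helper16.AltZeros

/-- label of a side -/
def lab (n : ℕ) (s : (fam n).Side) : Fin (4 * n + 6) :=
  if s.2 = true then ⟨labL n s.1.1, labL_lt n s.1.1⟩ else ⟨labR n s.1.1, labR_lt n s.1.1⟩

theorem next_nxt (n : ℕ) (p : Fin (2 * (fam n).N)) : Nxt n p.1 ((fam n).next p).1 := by
  have hp : p.1 < 2 * (4 * n + 4) := p.2
  have h1 : ((fam n).next p).1 = (p.1 + 1) % (2 * (4 * n + 4)) := rfl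
  by_cases h : p.1 + 1 < 8 * n + 8
  · left; rw [h1, Nat.mod_eq_of_lt (by omega)]; exact ⟨h, rfl⟩
  · right
    have h2 : p.1 = 8 * n + 7 := by omega
    refine ⟨h2, ?_⟩
    rw [h1, h2, show 8 * n + 7 + 1 = 2 * (4 * n + 4) by ring, Nat.mod_self]

theorem lab_corner (n : ℕ) (s s' : (fam n).Side) (h : (fam n).Corner s s') : lab n s = lab n s' := by
  have key : ∀ p : Fin (2 * (fam n).N), (fam n).isPos p = (fam n).isOver p →
      labL n ((fam n).next p).1 = labR n ((fam n).next ((fam n).partner p)).1 ∧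
      labL n p.1 = labL n ((fam n).next ((fam n).partner p)).1 ∧
      labR n p.1 = labL n ((fam n).partner p).1 ∧
      labR n ((fam n).next p).1 = labR n ((fam n).partner p).1 := by
    intro p hp
    exact corner_lab n p.1 _ _ (by have : p.1 < 2 * (4 * n + 4) := p.2; omega) hp (next_nxt n p)
      (next_nxt n ((fam n).partner p))
  rcases h with ⟨p, hp⟩ | ⟨p, hp⟩ | ⟨p, hp⟩ | ⟨p, hp⟩ <;> obtain ⟨h1, h2, h3, h4⟩ := key p hp
  · exact Fin.ext h1
  · exact Fin.ext h2
  · exact Fin.ext h3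
  · exact Fin.ext h4

/-- the region with a given side, on natural numbers -/
def mk (n p : ℕ) (s : Bool) : (fam n).Region :=
  Quot.mk _ (⟨p % (2 * (4 * n + 4)), Nat.mod_lt _ (by omega)⟩, s)

theorem mk_eq (n p : ℕ) (hp : p < 2 * (4 * n + 4)) (s : Bool) :
    mk n p s = Quot.mk (fam n).Corner (⟨p, hp⟩, s) := by
  unfold mk
  congr 2
  exact Fin.ext (Nat.mod_eq_of_lt hp)

theorem mk_wrap (n : ℕ) (s : Bool) : mk n (8 * n + 8) s = mk n 0 s := by
  unfold mk
  congr 2
  apply Fin.ext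
  show (8 * n + 8) % (2 * (4 * n + 4)) = 0 % (2 * (4 * n + 4))
  rw [show 8 * n + 8 = 2 * (4 * n + 4) by ring, Nat.mod_self, Nat.zero_mod]

/-- the four corner identities -/
abbrev Four (n p q : ℕ) : Prop :=
  mk n (p + 1) true = mk n (q + 1) false ∧ mk n p true = mk n (q + 1) true ∧
    mk n p false = mk n q true ∧ mk n (p + 1) false = mk n q false

theorem sound4 (n p q : ℕ) (hp : p < 8 * n + 8) (h : psn n p = decide (p % 2 = 0))
    (hq : part n p = q) : Four n p q := by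
  subst hq
  have hp' : p < 2 * (4 * n + 4) := by omega
  have hq' : part n p < 2 * (4 * n + 4) := by have := part_lt n p hp; omega
  unfold Four
  rw [mk_eq n p hp', mk_eq n p hp', mk_eq n (part n p) hq', mk_eq n (part n p) hq']
  exact ⟨Quot.sound (KnotDiagram.Corner.northWest (D := fam n) ⟨p, hp'⟩ h),
    Quot.sound (KnotDiagram.Corner.southWest (D := fam n) ⟨p, hp'⟩ h),
    Quot.sound (KnotDiagram.Corner.southEast (D := fam n) ⟨p, hp'⟩ h),
    Quot.sound (KnotDiagram.Corner.northEast (D := fam n) ⟨p, hp'⟩ h)⟩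

section facts
variable {n i : ℕ}

theorem F_U2 (h : i < n) : Four n (4 * i + 2) (8 * n - 4 * i - 1) := sound4 n (4 * i + 2) (8 * n - 4 * i - 1) (by omega)
  (by rw [psn_U2 h]; symm; simp; omega) (part_U2 h)
theorem F_U3 (h : i < n) : Four n (4 * i + 3) (4 * i) := sound4 n (4 * i + 3) (4 * i) (by omega)
  (by rw [psn_U3 h]; symm; simp; omega) (part_U3 h)
theorem F_D2 (h : i < n) : Four n (8 * n - 4 * i) (4 * i + 1) := sound4 n (8 * n - 4 * i) (4 * i + 1) (by omega)
  (by rw [psn_D2 h]; symm; simp; omega) (part_D2 h)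
theorem F_D3 (h : i < n) : Four n (8 * n - 4 * i + 1) (8 * n - 4 * i - 2) := sound4 n (8 * n - 4 * i + 1) (8 * n - 4 * i - 2) (by omega)
  (by rw [psn_D3 h]; symm; simp; omega) (part_D3 h)
theorem F_l1 : Four n (4 * n + 1) (8 * n + 4) := sound4 n (4 * n + 1) (8 * n + 4) (by omega)
  (by rw [psn_l1]; symm; simp; omega) (part_l1)
theorem F_c2 : Four n (8 * n + 2) (8 * n + 7) := sound4 n (8 * n + 2) (8 * n + 7) (by omega)
  (by rw [psn_c2]; symm; simp; omega) (part_c2)
theorem F_c5 : Four n (8 * n + 5) (4 * n) := sound4 n (8 * n + 5) (4 * n) (by omega)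
  (by rw [psn_c5]; symm; simp; omega) (part_c5)
theorem F_c6 : Four n (8 * n + 6) (8 * n + 3) := sound4 n (8 * n + 6) (8 * n + 3) (by omega)
  (by rw [psn_c6]; symm; simp; omega) (part_c6)

end facts

theorem bot (n j : ℕ) (hj : j ≤ n) : mk n (4 * j) false = mk n 0 false := by
  induction j with
  | zero => rfl
  | succ j ih =>
    have h := (F_U3 (n := n) (i := j) (by omega)).2.2.2
    rw [show 4 * (j + 1) = 4 * j + 3 + 1 by ring, h, ih (by omega)]

theorem top (n j : ℕ) (hj : j ≤ n) : mk n (8 * n - 4 * j + 2) false = mk n (8 * n + 2) false := by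
  induction j with
  | zero => rfl
  | succ j ih =>
    have h := (F_D3 (n := n) (i := j) (by omega)).2.2.2
    rw [show 8 * n - 4 * (j + 1) + 2 = 8 * n - 4 * j - 2 by omega, ← h, ← ih (by omega)]

/-- a representative of each region -/
def rp (n c : ℕ) : (fam n).Region :=
  if c = 4 * n + 5 then mk n (8 * n + 3) false
  else if c = 4 * n + 4 then mk n (4 * n + 1) false
  else if c = 4 * n + 3 then mk n (8 * n + 2) false
  else if c = 4 * n + 2 then mk n 0 false
  else if c = 4 * n + 1 then mk n (4 * n + 1) true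
  else if c % 4 = 0 then mk n c true
  else if c % 4 = 1 then mk n c true
  else if c % 4 = 2 then mk n c false
  else mk n (c - 1) true

section rpeval
variable {n i : ℕ}
theorem rp_z (h : i ≤ n) : rp n (4 * i) = mk n (4 * i) true := by
  unfold rp
  rw [if_neg (by omega), if_neg (by omega), if_neg (by omega), if_neg (by omega),
    if_neg (by omega), if_pos (by omega)]
theorem rp_z4 (h : i < n) : rp n (4 * i + 4) = mk n (4 * i + 3 + 1) true := rp_z (i := i + 1) h
theorem rp_1 (h : i < n) : rp n (4 * i + 1) = mk n (4 * i + 1) true := by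
  unfold rp
  rw [if_neg (by omega), if_neg (by omega), if_neg (by omega), if_neg (by omega),
    if_neg (by omega), if_neg (by omega), if_pos (by omega)]
theorem rp_2 (h : i < n) : rp n (4 * i + 2) = mk n (4 * i + 2) false := by
  unfold rp
  rw [if_neg (by omega), if_neg (by omega), if_neg (by omega), if_neg (by omega),
    if_neg (by omega), if_neg (by omega), if_neg (by omega), if_pos (by omega)]
theorem rp_3 (h : i < n) : rp n (4 * i + 3) = mk n (4 * i + 2) true := by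
  unfold rp
  rw [if_neg (by omega), if_neg (by omega), if_neg (by omega), if_neg (by omega),
    if_neg (by omega), if_neg (by omega), if_neg (by omega), if_neg (by omega)]
  rfl
theorem rp_n1 : rp n (4 * n + 1) = mk n (4 * n + 1) true := by
  unfold rp
  rw [if_neg (by omega), if_neg (by omega), if_neg (by omega), if_neg (by omega), if_pos rfl]
theorem rp_n2 : rp n (4 * n + 2) = mk n 0 false := by
  unfold rp
  rw [if_neg (by omega), if_neg (by omega), if_neg (by omega), if_pos rfl]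
theorem rp_n3 : rp n (4 * n + 3) = mk n (8 * n + 2) false := by
  unfold rp
  rw [if_neg (by omega), if_neg (by omega), if_pos rfl]
theorem rp_n4 : rp n (4 * n + 4) = mk n (4 * n + 1) false := by
  unfold rp
  rw [if_neg (by omega), if_pos rfl]
theorem rp_n5 : rp n (4 * n + 5) = mk n (8 * n + 3) false := by
  unfold rp
  rw [if_pos rfl]
end rpeval

theorem mk_rp (n p : ℕ) (hp : p < 8 * n + 8) :
    mk n p true = rp n (labL n p) ∧ mk n p false = rp n (labR n p) := by
  rcases cases_pos n p hp with ⟨i, hi, rfl | rfl | rfl | rfl⟩ | ⟨i, hi, rfl | rfl | rfl | rfl⟩ |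
    rfl | rfl | rfl | rfl | rfl | rfl | rfl | rfl
  · rw [labL_U0 hi, labR_U0 hi, rp_z hi.le, rp_n2]
    exact ⟨rfl, bot n i hi.le⟩
  · rw [labL_U1 hi, labR_U1 hi, rp_1 hi, rp_z4 hi]
    exact ⟨rfl, (F_U3 hi).1.symm⟩
  · rw [labL_U2 hi, labR_U2 hi, rp_2 hi, rp_3 hi]
    exact ⟨rfl, rfl⟩
  · rw [labL_U3 hi, labR_U3 hi, rp_1 hi, rp_z hi.le]
    exact ⟨(F_U3 hi).2.1, (F_U3 hi).2.2.1⟩
  · rw [labL_D0 hi, labR_D0 hi, rp_z4 hi, rp_n3]
    refine ⟨?_, ?_⟩
    · rw [← (F_D3 hi).2.2.1, (F_D2 hi).2.2.2, (F_U3 hi).1]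
    · rw [← (F_D3 hi).2.2.2]; exact top n i hi.le
  · rw [labL_D1 hi, labR_D1 hi, rp_2 hi, rp_z hi.le]
    refine ⟨(F_U2 hi).2.2.1.symm, ?_⟩
    rw [← (F_U3 hi).2.2.1]; exact (F_U2 hi).2.2.2.symm
  · rw [labL_D2 hi, labR_D2 hi, rp_3 hi, rp_1 hi]
    exact ⟨(F_D2 hi).2.1, (F_D2 hi).2.2.1⟩
  · rw [labL_D3 hi, labR_D3 hi, rp_2 hi, rp_z4 hi]
    refine ⟨(F_D2 hi).1, ?_⟩
    rw [(F_D2 hi).2.2.2, (F_U3 hi).1]
  · rw [labL_l0, labR_l0, rp_z le_rfl, rp_n2]
    exact ⟨rfl, bot n n le_rfl⟩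
  · rw [labL_l1, labR_l1, rp_n1, rp_n4]
    exact ⟨rfl, rfl⟩
  · rw [labL_c2, labR_c2, rp_n3]
    refine ⟨?_, rfl⟩
    rw [(F_c2 (n := n)).2.1, show 8 * n + 7 + 1 = 8 * n + 8 by ring, mk_wrap]
    exact (rp_z (i := 0) (Nat.zero_le n)).symm
  · rw [labL_c3, labR_c3, rp_n2, rp_n5]
    refine ⟨?_, rfl⟩
    have h := (F_c2 (n := n)).1
    rw [show 8 * n + 7 + 1 = 8 * n + 8 by ring, mk_wrap] at h
    exact h
  · rw [labL_c4, labR_c4, rp_n4, rp_n3]
    refine ⟨(F_l1 (n := n)).2.2.1.symm, ?_⟩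
    rw [← (F_l1 (n := n)).2.2.2]
    have h := top n n le_rfl
    rw [show 8 * n - 4 * n + 2 = 4 * n + 1 + 1 by omega] at h
    exact h
  · rw [labL_c5, labR_c5, rp_n1, rp_z le_rfl]
    exact ⟨(F_c5 (n := n)).2.1, (F_c5 (n := n)).2.2.1⟩
  · rw [labL_c6, labR_c6, rp_n4, rp_n2]
    refine ⟨(F_c5 (n := n)).1, ?_⟩
    rw [(F_c5 (n := n)).2.2.2]
    exact bot n n le_rfl
  · rw [labL_c7, labR_c7, rp_n3, rp_n5]
    exact ⟨(F_c2 (n := n)).2.2.1.symm, (F_c2 (n := n)).2.2.2.symm⟩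

/-- label of a region -/
def labQ (n : ℕ) : (fam n).Region → Fin (4 * n + 6) :=
  Quot.lift (lab n) (lab_corner n)

theorem labQ_mk_true (n p : ℕ) (hp : p < 8 * n + 8) : (labQ n (mk n p true)).1 = labL n p := by
  rw [mk_eq n p (by omega)]; rfl

theorem labQ_mk_false (n p : ℕ) (hp : p < 8 * n + 8) : (labQ n (mk n p false)).1 = labR n p := by
  rw [mk_eq n p (by omega)]; rfl

theorem labQ_rp (n c : ℕ) (hc : c < 4 * n + 6) : (labQ n (rp n c)).1 = c := by
  have hcases : (∃ i, i < n ∧ (c = 4 * i ∨ c = 4 * i + 1 ∨ c = 4 * i + 2 ∨ c = 4 * i + 3)) ∨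
      c = 4 * n ∨ c = 4 * n + 1 ∨ c = 4 * n + 2 ∨ c = 4 * n + 3 ∨ c = 4 * n + 4 ∨
      c = 4 * n + 5 := by
    by_cases h : c < 4 * n
    · left; exact ⟨c / 4, by omega, by omega⟩
    · right; omega
  rcases hcases with ⟨i, hi, rfl | rfl | rfl | rfl⟩ | rfl | rfl | rfl | rfl | rfl | rfl
  · rw [rp_z hi.le, labQ_mk_true n _ (by omega), labL_U0 hi]
  · rw [rp_1 hi, labQ_mk_true n _ (by omega), labL_U1 hi]
  · rw [rp_2 hi, labQ_mk_false n _ (by omega), labR_U2 hi]
  · rw [rp_3 hi, labQ_mk_true n _ (by omega), labL_U2 hi]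
  · rw [rp_z le_rfl, labQ_mk_true n _ (by omega), labL_l0]
  · rw [rp_n1, labQ_mk_true n _ (by omega), labL_l1]
  · rw [rp_n2, labQ_mk_false n _ (by omega), labR_z]
  · rw [rp_n3, labQ_mk_false n _ (by omega), labR_c2]
  · rw [rp_n4, labQ_mk_false n _ (by omega), labR_l1]
  · rw [rp_n5, labQ_mk_false n _ (by omega), labR_c3]

theorem rp_labQ (n : ℕ) (x : (fam n).Region) : rp n (labQ n x).1 = x := by
  induction x using Quot.inductionOn with
  | _ s =>
    obtain ⟨p, b⟩ := s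
    have hp : p.1 < 2 * (4 * n + 4) := p.2
    cases b with
    | true =>
      show rp n (labL n p.1) = _
      rw [← (mk_rp n p.1 (by omega)).1, mk_eq n p.1 hp]
    | false =>
      show rp n (labR n p.1) = _
      rw [← (mk_rp n p.1 (by omega)).2, mk_eq n p.1 hp]

theorem fam_planar (n : ℕ) : (fam n).Planar := by
  have e : (fam n).Region ≃ Fin (4 * n + 6) :=
    { toFun := labQ n
      invFun := fun c => rp n c.1
      left_inv := rp_labQ n
      right_inv := fun c => Fin.ext (labQ_rp n c.1 c.2) }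
  show Nat.card (fam n).Region = 4 * n + 4 + 2
  rw [Nat.card_congr e, Nat.card_eq_fintype_card, Fintype.card_fin]

end Pool.Agent.Helper16.AltZeros
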